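import Mathlib

set_option autoImplicit false

namespace Pool.Agent.Results.MP_360c0a_pr.Yes

open MeasureTheory Set Filter Topology Nat

/-- The discrete Laplacian. -/
noncomputable def lap (f : ℤ → ℝ) (x : ℤ) : ℝ := (f (x + 1) + f (x - 1) - 2 * f x) / 2

/-- `u` solves the parabolic Anderson model on `[0, ∞)` and is bounded on `[0, T] × ℤ` for every `T`. -/
def IsSol (ξ u0 : ℤ → ℝ) (u : ℝ → ℤ → ℝ) : Prop :=
  u 0 = u0 ∧ (∀ x, ∀ t, 0 ≤ t → HasDerivWithinAt (fun s => u s x) (lap (u t) x + ξ x * u t x) (Ici 0) t) ∧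
    ∀ T, ∃ K, ∀ t ∈ Icc 0 T, ∀ x, |u t x| ≤ K

noncomputable def A (ξ f : ℤ → ℝ) (x : ℤ) : ℝ := (f (x + 1) + f (x - 1)) / 2 + ξ x * f x

lemma uniq {ξ u0 : ℤ → ℝ} {b : ℝ} (hb : ∀ x, |ξ x| ≤ b) {u v : ℝ → ℤ → ℝ} (hu : IsSol ξ u0 u) (hv : IsSol ξ u0 v)
    {T : ℝ} (hT : 0 ≤ T) (x : ℤ) : u T x = v T x := by
  obtain ⟨K1, h1⟩ := hu.2.2 T
  obtain ⟨K2, h2⟩ := hv.2.2 T
  have b0 : 0 ≤ b := (abs_nonneg _).trans (hb 0)
  have key : ∀ n : ℕ, ∀ x, ∀ t ∈ Icc 0 T, ‖u t x - v t x‖ ≤ (K1 + K2) * (2 + b) ^ n * (t ^ n / n !) := by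
    intro n
    induction n with
    | zero => exact fun x t ht => by simpa using (abs_sub _ _).trans (add_le_add (h1 t ht x) (h2 t ht x))
    | succ n ih =>
      intro x
      have d := fun t ht => (hu.2.1 x t ht).sub (hv.2.1 x t ht)
      refine image_norm_le_of_norm_deriv_right_le_deriv_boundary (f := fun t => u t x - v t x)
        (B' := fun t => (K1 + K2) * (2 + b) ^ (n + 1) * (t ^ n / n !))
        (fun t ht => ((d t ht.1).continuousWithinAt).mono fun s hs => hs.1)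
        (fun t ht => (d t ht.1).mono fun s hs => ht.1.trans hs) (by simp [hu.1, hv.1]) (fun t => ?_) fun t ht => ?_
      · refine (((hasDerivAt_pow (n + 1) t).div_const ((n + 1)! : ℝ)).const_mul
          ((K1 + K2) * (2 + b) ^ (n + 1))).congr_deriv ?_
        rw [factorial_succ]; push_cast; field_simp
      · have e1 := abs_le.1 (ih (x + 1) t ⟨ht.1, ht.2.le⟩)
        have e2 := abs_le.1 (ih (x - 1) t ⟨ht.1, ht.2.le⟩)
        have e3 := ih x t ⟨ht.1, ht.2.le⟩
        have e4 : |ξ x * (u t x - v t x)| ≤ b * ((K1 + K2) * (2 + b) ^ n * (t ^ n / n !)) := by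
          rw [abs_mul]; exact mul_le_mul (hb x) e3 (abs_nonneg _) b0
        have e5 := abs_le.1 e4
        have e6 := abs_le.1 e3
        rw [Real.norm_eq_abs, abs_le, pow_succ]
        simp only [lap]
        constructor <;> nlinarith
  have lim := ((FloorSemiring.tendsto_pow_div_factorial_atTop ((2 + b) * T)).const_mul (K1 + K2))
  have := ge_of_tendsto' lim fun n => (key n x T ⟨hT, le_rfl⟩).trans_eq (by rw [mul_pow]; ring)
  simpa [sub_eq_zero] using this

lemma summ {c : ℕ → ℝ} {K L : ℝ} (h : ∀ j, |c j| ≤ K * L ^ j) (t : ℝ) : Summable fun j => t ^ j / j ! * c j := by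
  refine .of_norm_bounded ((Real.summable_pow_div_factorial (|t| * L)).mul_left K) fun j => ?_
  rw [Real.norm_eq_abs, abs_mul, abs_div, abs_pow, Nat.abs_cast]
  exact (mul_le_mul_of_nonneg_left (h j) (by positivity)).trans_eq (by rw [mul_pow]; ring)

lemma der {c : ℕ → ℝ} {K L : ℝ} (h : ∀ j, |c j| ≤ K * L ^ j) (t : ℝ) :
    HasDerivAt (fun t : ℝ => ∑' j, t ^ j / j ! * c j) (∑' j, t ^ j / j ! * c (j + 1)) t := by
  set R := |t| + 1
  have R0 : 0 ≤ R := by positivity
  have e : ∀ (s : ℝ) (d : ℕ → ℝ) (j : ℕ), ((j + 1 : ℕ) : ℝ) * s ^ (j + 1 - 1) / (j + 1)! * d (j + 1)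
      = s ^ j / j ! * d (j + 1) := fun s d j => by
    rw [factorial_succ]; push_cast; field_simp
  have h' : ∀ j, |c (j + 1)| ≤ K * L * L ^ j := fun j => (h _).trans_eq (by ring)
  have su : Summable fun j : ℕ => (j : ℝ) * R ^ (j - 1) / j ! * |c j| := by
    rw [← summable_nat_add_iff 1]
    exact (summ (c := fun j => |c (j + 1)|) (fun j => by simpa using h' j) R).congr fun j =>
      (e R (fun j => |c j|) j).symm
  have := hasDerivAt_tsum_of_isPreconnected (t := Ioo (-R) R) (g := fun j t => t ^ j / j ! * c j)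
    (g' := fun j t => (j : ℝ) * t ^ (j - 1) / j ! * c j) (y₀ := t) (y := t) su isOpen_Ioo isPreconnected_Ioo
    (fun j y _ => ((hasDerivAt_pow j y).div_const _).mul_const _)
    (fun j y hy => by
      rw [Real.norm_eq_abs, abs_mul, abs_div, abs_mul, abs_pow, Nat.abs_cast, Nat.abs_cast]
      have := (abs_lt.2 hy).le
      gcongr)
    (abs_lt.1 (lt_add_one _)) (summ h t) (abs_lt.1 (lt_add_one _))
  refine this.congr_deriv ?_
  rw [Summable.tsum_eq_zero_add (by rw [← summable_nat_add_iff 1]; simp only [e]; exact summ h' t)]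
  simp only [e]; simp

lemma jen {c : ℕ → ℝ} {K L β t : ℝ} {m : ℕ} (h : ∀ j, |c j| ≤ K * L ^ j) (c0 : ∀ j, 0 ≤ c j) (c1 : ∃ j, 0 < c j)
    (hm : 0 < m) (hc : ∀ j, β * c j ≤ c (j + m)) (ht : 0 < t) (hβ : 1 < β * (t / (t + m)) ^ m) :
    ∑' j, t ^ j / j ! * c j < ∑' j, t ^ j / j ! * c (j + 1) := by
  by_contra hn
  rw [not_lt] at hn
  have h' : ∀ j, |c (j + 1)| ≤ K * L * L ^ j := fun j => (h _).trans_eq (by ring)
  have s0 := summ h t
  have s1 := summ h' t
  set ρ := (t / (t + m)) ^ m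
  have ρ0 : 0 < ρ := by positivity
  have β0 : 0 < β := by by_contra k; nlinarith
  have m0 : (0 : ℝ) < m := by exact_mod_cast hm
  have S0 : 0 < ∑' j, t ^ j / j ! * c j := by
    obtain ⟨j, hj⟩ := c1
    exact s0.tsum_pos (fun j => mul_nonneg (by positivity) (c0 j)) j (by positivity)
  have e : ∀ j : ℕ, ((j + 1 : ℕ) : ℝ) * (t ^ (j + 1) / (j + 1)! * c (j + 1)) = t * (t ^ j / j ! * c (j + 1)) :=
    fun j => by rw [factorial_succ]; push_cast; field_simp; ring
  have s2 : HasSum (fun j : ℕ => (j : ℝ) * (t ^ j / j ! * c j)) (t * ∑' j, t ^ j / j ! * c (j + 1)) := by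
    rw [← hasSum_nat_add_iff' 1]
    simp only [e]
    simpa using s1.hasSum.mul_left t
  have k1 : ∑' j, t ^ (j + m) / (j + m)! * c (j + m) ≤ ∑' j, t ^ j / j ! * c j := by
    rw [← s0.sum_add_tsum_nat_add m]
    exact le_add_of_nonneg_left (Finset.sum_nonneg fun j _ => mul_nonneg (by positivity) (c0 j))
  have k2 := hasSum_le (fun j => ?_) (((s0.hasSum.mul_left (1 + m * t / (t + m))).sub
    (s2.mul_left (m / (t + m)))).mul_left (β * ρ)) ((summable_nat_add_iff m).2 s0).hasSum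
  · have k3 : m / (t + m) * (t * ∑' j, t ^ j / j ! * c (j + 1)) ≤ m * t / (t + m) * ∑' j, t ^ j / j ! * c j := by
      rw [← mul_assoc, div_mul_eq_mul_div]; gcongr
    nlinarith
  have jm : (0 : ℝ) < j + m := by positivity
  have a1 : ((j + m)! : ℝ) ≤ j ! * (j + m) ^ m := by
    have := Nat.factorial_mul_descFactorial (Nat.le_add_left m j)
    have := Nat.descFactorial_le_pow (j + m) m
    simp only [Nat.add_sub_cancel] at *
    exact_mod_cast (by nlinarith [Nat.factorial_pos j] : (j + m)! ≤ j ! * (j + m) ^ m)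
  have a2 : 1 + m * t / (t + m) - m / (t + m) * j ≤ ((t + m) / (j + m)) ^ m := by
    have := one_add_mul_le_pow (a := (t + m) / (j + m) - 1) (by have : 0 ≤ (t + m) / (j + m) := by positivity
                                                                linarith) m
    rw [add_sub_cancel] at this
    refine le_trans ?_ this
    have : (t - j) / (t + m) ≤ (t + m) / (j + m) - 1 := by
      rw [div_sub_one jm.ne', div_le_div_iff₀ (by positivity) jm]; nlinarith [sq_nonneg (t - j)]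
    have := mul_le_mul_of_nonneg_left this m0.le
    refine le_trans (le_of_eq ?_) (add_le_add_right this 1)
    ring
  have a3 : ρ * ((t + m) / (j + m)) ^ m = t ^ m / (j + m) ^ m := by
    rw [← mul_pow, ← div_pow]; congr 1; field_simp
  calc _ = (1 + m * t / (t + m) - m / (t + m) * j) * ρ * (t ^ j / j ! * (β * c j)) := by ring
    _ ≤ ((t + m) / (j + m)) ^ m * ρ * (t ^ j / j ! * (β * c j)) := by have := c0 j; gcongr
    _ = t ^ (j + m) / (j ! * (j + m) ^ m) * (β * c j) := by rw [mul_comm _ ρ, a3, pow_add]; field_simp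
    _ ≤ _ := by have := c0 j; have := hc j; gcongr

lemma plb {f : ℤ → ℝ} (f0 : ∀ x, 0 ≤ f x) (n : ℕ) : (∀ x, 0 ≤ (A 0)^[n] f x) ∧
    ∀ (k : ℕ) (x : ℤ), (n.choose k : ℝ) / 2 ^ n * f (x + 2 * k - n) ≤ (A 0)^[n] f x := by
  induction n with
  | zero => exact ⟨f0, fun k x => by cases k <;> simp [f0]⟩
  | succ n ih =>
    simp only [Function.iterate_succ_apply', A, Pi.zero_apply, zero_mul, add_zero]
    refine ⟨fun x => by have := ih.1 (x + 1); have := ih.1 (x - 1); positivity, fun k x => ?_⟩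
    have h1 := ih.2 k (x - 1)
    rw [show x - 1 + 2 * k - n = x + 2 * k - (n + 1 : ℕ) by push_cast; ring] at h1
    cases k with
    | zero =>
      have := ih.1 (x + 1)
      simp only [Nat.choose_zero_right] at h1 ⊢
      refine le_trans (le_of_eq ?_) (div_le_div_of_nonneg_right (add_le_add this h1) two_pos.le)
      rw [pow_succ]; ring
    | succ k =>
      have h2 := ih.2 k (x + 1)
      rw [show x + 1 + 2 * k - n = x + 2 * (k + 1 : ℕ) - (n + 1 : ℕ) by push_cast; ring] at h2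
      refine le_trans (le_of_eq ?_) (div_le_div_of_nonneg_right (add_le_add h2 h1) two_pos.le)
      rw [pow_succ, Nat.choose_succ_succ', Nat.cast_add]; ring

lemma cmp {ξ f g : ℤ → ℝ} {a k : ℝ} (ha : ∀ x, a ≤ ξ x) (a0 : 0 ≤ a) (g0 : ∀ x, 0 ≤ g x) (h : ∀ x, k * f x ≤ g x)
    (n : ℕ) : (∀ x, 0 ≤ (A ξ)^[n] g x) ∧ (∀ x, k * (A 0)^[n] f x ≤ (A ξ)^[n] g x) ∧
      ∀ x, k * ((n + 1) * a) * (A 0)^[n] f x ≤ A ξ ((A ξ)^[n] g) x := by
  have p : ∀ G : ℤ → ℝ, (∀ x, 0 ≤ G x) → ∀ x, A 0 G x + a * G x ≤ A ξ G x ∧ 0 ≤ A 0 G x ∧ 0 ≤ a * G x :=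
    fun G h x => by
      have := h (x + 1); have := h (x - 1); have := h x; have := ha x
      simp only [A, Pi.zero_apply]
      exact ⟨by nlinarith, by positivity, by positivity⟩
  have q : ∀ (k : ℝ) (F G : ℤ → ℝ), (∀ x, k * F x ≤ G x) → ∀ x, k * A 0 F x ≤ A 0 G x := fun k F G h x => by
    have := h (x + 1); have := h (x - 1); simp only [A, Pi.zero_apply]; linarith
  induction n with
  | zero =>
    refine ⟨g0, h, fun x => ?_⟩
    have := p g g0 x
    have := mul_le_mul_of_nonneg_left (h x) a0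
    simp only [Function.iterate_zero, id, Nat.cast_zero]; linarith
  | succ n ih =>
    simp only [Function.iterate_succ_apply']
    have k0 : ∀ x, 0 ≤ A ξ ((A ξ)^[n] g) x := fun x => by have := p _ ih.1 x; linarith
    have k1 : ∀ x, k * A 0 ((A 0)^[n] f) x ≤ A ξ ((A ξ)^[n] g) x := fun x => by
      have := p _ ih.1 x; have := q _ _ _ ih.2.1 x; linarith
    refine ⟨k0, k1, fun x => ?_⟩
    have := p _ k0 x
    have := q _ _ _ ih.2.2 x
    have := mul_le_mul_of_nonneg_left (k1 x) a0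
    push_cast; linarith

lemma main {a : ℝ} (a0 : 0 < a) : ∃ T, ∀ (b C : ℝ) (ξ u0 : ℤ → ℝ), (∀ x, a ≤ ξ x ∧ ξ x ≤ b) →
    (∀ x, 0 ≤ u0 x ∧ u0 x ≤ C) → 0 < u0 0 → (∃ u, IsSol ξ u0 u) ∧
      ∀ u, IsSol ξ u0 u → ∀ x, StrictMonoOn (fun t => u t x) (Ici T) := by
  obtain ⟨n, hn⟩ := exists_nat_gt (2 / a ^ 2)
  set β := ((n + 1) * a) ^ 2 / (2 * n + 1)
  have β1 : 1 < β := by
    rw [div_lt_iff₀ (by positivity)] at hn
    rw [one_lt_div (by positivity)]; nlinarith [sq_nonneg a, (n.cast_nonneg : (0 : ℝ) ≤ n)]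
  have lim : Tendsto (fun t : ℝ => β * (t / (t + (n + 1 + (n + 1) : ℕ))) ^ (n + 1 + (n + 1))) atTop
      (𝓝 (β * (1 / 1) ^ (n + 1 + (n + 1)))) := by
    refine (Tendsto.pow ?_ _).const_mul β
    have := (tendsto_const_nhds (x := (1 : ℝ))).sub ((tendsto_const_nhds (x := ((n + 1 + (n + 1) : ℕ) : ℝ))).div_atTop
      (tendsto_atTop_add_const_right atTop ((n + 1 + (n + 1) : ℕ) : ℝ) tendsto_id))
    rw [sub_zero] at this
    rw [div_one]
    refine this.congr' ((eventually_gt_atTop 0).mono fun t ht => ?_)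
    simp only [id]; field_simp; ring
  obtain ⟨T, hT⟩ := eventually_atTop.1 ((lim.eventually (lt_mem_nhds (by simpa using β1))).and (eventually_gt_atTop 0))
  refine ⟨T, fun b C ξ u0 hξ hu h0 => ?_⟩
  have hb : ∀ x, |ξ x| ≤ b := fun x => by rw [abs_of_pos (a0.trans_le (hξ x).1)]; exact (hξ x).2
  have b0 : 0 ≤ b := (abs_nonneg _).trans (hb 0)
  have cm := fun {f g : ℤ → ℝ} {k : ℝ} => cmp (f := f) (g := g) (k := k) (fun x => (hξ x).1) a0.le
  have c0 := fun j => cm (f := u0) (k := 1) (fun x => (hu x).1) (by simp) j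
  have bd : ∀ x j, |(A ξ)^[j] u0 x| ≤ C * (1 + b) ^ j := fun x j => by
    rw [abs_of_nonneg ((c0 j).1 x)]
    induction j generalizing x with
    | zero => simpa using (hu x).2
    | succ j ih =>
      have := ih (x + 1); have := ih (x - 1)
      have := mul_le_mul (hξ x).2 (ih x) ((c0 j).1 x) b0
      rw [Function.iterate_succ_apply', A, pow_succ]; linarith
  set S := fun (t : ℝ) x => ∑' j : ℕ, t ^ j / j ! * (A ξ)^[j] u0 x with hS
  have dv : ∀ x t, HasDerivAt (fun t => Real.exp (-t) * S t x)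
      (Real.exp (-t) * (∑' j : ℕ, t ^ j / j ! * (A ξ)^[j + 1] u0 x - S t x)) t := fun x t =>
    ((hasDerivAt_neg t).exp.mul (der (bd x) t)).congr_deriv (by ring)
  have sol : IsSol ξ u0 fun t x => Real.exp (-t) * S t x := by
    refine ⟨funext fun x => ?_, fun x t _ => ((dv x t).congr_deriv ?_).hasDerivWithinAt, fun T =>
      ⟨∑' j : ℕ, T ^ j / j ! * (C * (1 + b) ^ j), fun t ht x => ?_⟩⟩
    · simp only [hS]; rw [tsum_eq_single 0 fun j hj => by simp [hj]]; simp
    · have := ((((summ (bd (x + 1)) t).hasSum.add (summ (bd (x - 1)) t).hasSum).div_const 2).add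
        ((summ (bd x) t).hasSum.mul_left (ξ x))).tsum_eq
      rw [tsum_congr fun j => by rw [Function.iterate_succ_apply', A], tsum_congr, this]
      · simp only [lap, hS]; ring
      · intro j; ring
    · rw [abs_mul, abs_of_pos (Real.exp_pos _)]
      refine (mul_le_of_le_one_left (abs_nonneg _) (Real.exp_le_one_iff.2 (by linarith [ht.1]))).trans
        (tsum_of_norm_bounded (f := fun j : ℕ => t ^ j / j ! * (A ξ)^[j] u0 x) (summ (c := fun j => C * (1 + b) ^ j) (K := |C|) (L := 1 + b) (fun j => by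
          rw [abs_mul, abs_of_nonneg (a := (1 + b) ^ j) (by positivity)]) T).hasSum fun j => ?_)
      rw [Real.norm_eq_abs, abs_mul, abs_of_nonneg (by have := ht.1; positivity)]
      have := ht.1; have := ht.2; have := bd x j; have := ht.1.trans ht.2
      gcongr
  refine ⟨⟨_, sol⟩, fun u hu' x => StrictMonoOn.congr (f₁ := fun t => Real.exp (-t) * S t x) ?_
    fun t ht => uniq hb sol hu' (hT t ht).2.le x⟩
  refine strictMonoOn_of_deriv_pos (convex_Ici T) (fun t _ => (dv x t).continuousAt.continuousWithinAt) fun t ht => ?_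
  have ht' := hT t (interior_subset ht)
  rw [(dv x t).deriv]
  refine mul_pos (Real.exp_pos _) (sub_pos.2 (jen (bd x) (fun j => (c0 j).1 x) ⟨x.natAbs, ?_⟩ (by omega)
    (fun j => ?_) ht'.2 ht'.1))
  · have h1 := (plb (fun x => (hu x).1) x.natAbs).2 (if 0 ≤ x then 0 else x.natAbs) x
    have h2 := (c0 x.natAbs).2.1 x
    rw [show x + 2 * ((if 0 ≤ x then 0 else x.natAbs : ℕ) : ℤ) - x.natAbs = 0 by split_ifs <;> omega] at h1
    have : 0 < x.natAbs.choose (if 0 ≤ x then 0 else x.natAbs) := Nat.choose_pos (by split_ifs <;> omega)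
    exact lt_of_lt_of_le (by positivity) (h1.trans ((one_mul _).symm.trans_le h2))
  · have h1 := cm (f := (A ξ)^[j] u0) (k := 1) (c0 j).1 (by simp)
    have h2 := (cm (k := 1 * ((n + 1) * a)) (fun x => by simpa only [Function.iterate_succ_apply'] using (h1 (n + 1)).1 x)
      (h1 n).2.2 n).2.2 x
    have h3 := (plb (c0 j).1 (n + n)).2 n x
    rw [show x + 2 * n - (n + n : ℕ) = x by push_cast; ring, Function.iterate_add_apply] at h3
    have h4 : (2 : ℝ) ^ (n + n) ≤ (2 * n + 1) * (n + n).choose n := by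
      rw [← two_mul, pow_mul]; exact_mod_cast Nat.four_pow_le_two_mul_add_one_mul_central_binom n
    have h5 : 1 / (2 * n + 1 : ℝ) ≤ ((n + n).choose n : ℝ) / 2 ^ (n + n) := by
      rw [div_le_div_iff₀ (by positivity) (by positivity)]; linarith
    rw [add_comm j, Function.iterate_add_apply, Function.iterate_add_apply, Function.iterate_succ_apply',
      Function.iterate_succ_apply' _ n]
    have := (c0 j).1 x
    refine le_trans ?_ h2
    calc _ = 1 * ((n + 1) * a) * ((n + 1) * a) * (1 / (2 * n + 1) * (A ξ)^[j] u0 x) := by simp only [β]; ring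
      _ ≤ _ := by gcongr; exact le_trans (by gcongr) h3

theorem result {Ω : Type} [MeasurableSpace Ω] (P : Measure Ω) (ξ : ℤ → Ω → ℝ) (a b : ℝ) (ha : 0 < a)
    (hξ : ∀ x, ∀ᵐ ω ∂P, a ≤ ξ x ω ∧ ξ x ω ≤ b) (u0 : ℤ → ℕ) (C : ℝ) (hC : ∀ x, (u0 x : ℝ) ≤ C) (h0 : 1 ≤ u0 0) :
    ∃ T : ℝ, ∀ᵐ ω ∂P, (∃ u, IsSol (fun x => ξ x ω) (fun x => u0 x) u) ∧
      (∀ u v, IsSol (fun x => ξ x ω) (fun x => u0 x) u → IsSol (fun x => ξ x ω) (fun x => u0 x) v →
        ∀ t, 0 ≤ t → u t = v t) ∧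
      ∀ u, IsSol (fun x => ξ x ω) (fun x => u0 x) u → ∀ x, StrictMonoOn (fun t => u t x) (Ici T) := by
  obtain ⟨T, hT⟩ := main ha
  refine ⟨T, ?_⟩
  filter_upwards [ae_all_iff.2 hξ] with ω hω
  have := hT b C _ (fun x => u0 x) hω (fun x => ⟨Nat.cast_nonneg _, hC x⟩) (by exact_mod_cast h0)
  exact ⟨this.1, fun u v hu hv t ht => funext (uniq (b := b)
    (fun x => by rw [abs_of_pos (ha.trans_le (hω x).1)]; exact (hω x).2) hu hv ht), this.2⟩

end Pool.Agent.Results.MP_360c0a_pr.Yes
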